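import Mathlib

set_option autoImplicit false

/-!
# The covering lemma (helper75's Theorem C), abstract form
-/

namespace Pool.Agent.H70.TC

variable {X : Type}

/-- The main case of the covering lemma. -/
lemma core (S : Set X) (b1 b2 b3 : X → ℝ) (hsum : ∀ x, b1 x + b2 x + b3 x = 1)
    (y1 y3 n1 n2 n3 : X) (hy1S : y1 ∈ S) (hy3S : y3 ∈ S) (hn1S : n1 ∈ S) (hn2S : n2 ∈ S) (hn3S : n3 ∈ S)
    (hy1 : ∀ x ∈ S, b1 x ≤ b1 y1) (hy3 : ∀ x ∈ S, b3 x ≤ b3 y3)
    (hn1 : b1 n1 ≤ 0) (hn13 : b1 n1 ≤ b1 y3 - 1 / 2)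
    (hn21 : b2 n2 ≤ b2 y1 - 1 / 2) (hn3 : b3 n3 ≤ 0) (hn31 : b3 n3 ≤ b3 y1 - 1 / 2)
    (z d : ℝ) (hz : 0 < z) (hd : 0 < d) (h1 : ∀ x ∈ S, 1 / 2 < b3 x + z * b1 x)
    (h2 : ∀ x ∈ S, 1 / 2 < b1 x + d * b2 x) : False := by
  have e1 := h1 n1 hn1S
  have e2 := h2 n1 hn1S
  have e3 := h1 n3 hn3S
  have e4 := h2 n2 hn2S
  have e5 := h2 y3 hy3S
  have s1 := hsum n1
  have s3 := hsum y3
  have s4 := hsum y1
  have m1 := hy1 n3 hn3S
  have m2 := hy1 n2 hn2S
  have m3 := hy3 n1 hn1S
  have e6 := h1 y1 hy1S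
  rcases le_or_gt 0 (d * z + 1 - d) with hk | hk
  · rcases le_or_gt d 1 with hd1 | hd1
    · have hA : 0 < (d * z + 1 - d) * b1 n1 - (1 - d) / 2 := by
        have : d * (b3 n1 + z * b1 n1) + (b1 n1 + d * b2 n1) > d * (1 / 2) + 1 / 2 := by
          have := mul_lt_mul_of_pos_left e1 hd
          linarith
        have e : b3 n1 = 1 - b1 n1 - b2 n1 := by linarith
        rw [e] at this
        nlinarith
      have := mul_nonneg hk (neg_nonneg.2 hn1)
      nlinarith
    · -- `z A < B`, `d B < (d - 1) A`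
      have hA : z * (-2 * b1 n1) < 2 * b3 y3 - 1 := by nlinarith
      have hB : d * (2 * b3 y3 - 1) < (d - 1) * (-2 * b1 n1) := by
        have e : b2 y3 = 1 - b1 y3 - b3 y3 := by linarith
        rw [e] at e5
        have := mul_le_mul_of_nonneg_left hn13 (show 0 ≤ d - 1 by linarith)
        nlinarith
      have hC := mul_lt_mul_of_pos_left hA hd
      have := mul_nonneg hk (show 0 ≤ -2 * b1 n1 by linarith)
      nlinarith
  · have hX : b3 n3 + b2 n2 ≤ - b1 y1 := by linarith
    have hA : 1 / 2 - b3 n3 < z * b1 y1 := by nlinarith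
    have hB : d * (- b2 n2) < b1 y1 - 1 / 2 := by nlinarith
    have hC : d * b1 y1 ≤ d * (-b3 n3 - b2 n2) := mul_le_mul_of_nonneg_left (by linarith) hd.le
    have hD := mul_lt_mul_of_pos_left hA hd
    have hF : 0 < b1 y1 := by
      by_contra hneg
      push Not at hneg
      have := mul_nonpos_of_nonneg_of_nonpos hz.le hneg
      linarith
    have := mul_pos_of_neg_of_neg hk (neg_neg_of_pos hF)
    nlinarith

/-- The data of the covering lemma: barycentric coordinates `b`, extremal points `y`, `n` and a point `q`. -/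
structure Data (S : Set X) (b : Fin 3 → X → ℝ) (y n : Fin 3 → X) (q : X) : Prop where
  sum : ∀ x, b 0 x + b 1 x + b 2 x = 1
  hy : ∀ k, y k ∈ S
  hn : ∀ k, n k ∈ S
  hq : q ∈ S
  ymax : ∀ k, ∀ x ∈ S, b k x ≤ b k (y k)
  n0 : ∀ k, b k (n k) ≤ 0
  nj : ∀ k j, j ≠ k → b k (n k) ≤ b k (y j) - 1 / 2
  q2 : ∀ k, b k q ≤ 1 / 2

/-- The covering lemma. -/
lemma cover (S : Set X) (b : Fin 3 → X → ℝ) (y n : Fin 3 → X) (q : X) (H : Data S b y n q)
    (h : ∀ k : Fin 3, ∃ a c : ℝ, ∀ x ∈ S, 0 < a * b k x + c * (b (k + 1) x - b (k + 2) x)) : False := by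
  have hsumk : ∀ (k : Fin 3) (x : X), b k x + b (k + 1) x + b (k + 2) x = 1 := by
    intro k x
    have := H.sum x
    fin_cases k
    · simpa using this
    · show b 1 x + b (1 + 1) x + b (1 + 2) x = 1
      rw [show (1 + 1 : Fin 3) = 2 from rfl, show (1 + 2 : Fin 3) = 0 from rfl]; linarith
    · show b 2 x + b (2 + 1) x + b (2 + 2) x = 1
      rw [show (2 + 1 : Fin 3) = 0 from rfl, show (2 + 2 : Fin 3) = 1 from rfl]; linarith
  -- the two types
  have htype : ∀ k : Fin 3, (∃ z : ℝ, 0 < z ∧ ∀ x ∈ S, 1 / 2 < b (k + 1) x + z * b k x) ∨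
      (∃ z : ℝ, 0 < z ∧ ∀ x ∈ S, 1 / 2 < b (k + 2) x + z * b k x) := by
    intro k
    obtain ⟨a, c, hac⟩ := h k
    have hq1 := hac q H.hq
    have q0 := H.q2 k
    have q1 := H.q2 (k + 1)
    have q2 := H.q2 (k + 2)
    have hs := hsumk k q
    have hn0 := hac (n k) (H.hn k)
    have hnk := H.n0 k
    rcases lt_trichotomy c 0 with hc | hc | hc
    · right
      obtain ⟨c', rfl⟩ : ∃ c', c = -c' := ⟨-c, by ring⟩
      have hc' : 0 < c' := by linarith
      refine ⟨(a / c' + 1) / 2, ?_, ?_⟩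
      · have : 0 < a + c' := by
          by_contra hneg
          push Not at hneg
          have e : b k q = 1 - b (k + 1) q - b (k + 2) q := by linarith
          rw [e] at hq1
          nlinarith [mul_nonneg (show 0 ≤ c' - a by linarith) (show 0 ≤ 1 / 2 - b (k + 1) q by linarith),
            mul_nonneg (show 0 ≤ -(a + c') by linarith) (show 0 ≤ 1 / 2 - b (k + 2) q by linarith),
            mul_nonneg (show 0 ≤ c' - a by linarith) (show 0 ≤ 1 / 2 - b (k + 2) q by linarith),
            mul_nonneg (show 0 ≤ -(a + c') by linarith) (show 0 ≤ 1 / 2 - b (k + 1) q by linarith)]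
        have h2 : a / c' + 1 = (a + c') / c' := by field_simp
        rw [h2]
        positivity
      · intro x hx
        have h1 := hac x hx
        have h2 := hsumk k x
        have h3 : 0 < (a / c') * b k x - (b (k + 1) x - b (k + 2) x) := by
          have : (a / c') * b k x - (b (k + 1) x - b (k + 2) x) =
              (a * b k x + -c' * (b (k + 1) x - b (k + 2) x)) / c' := by
            field_simp
            ring
          rw [this]
          positivity
        linarith
    · exfalso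
      rw [hc] at hq1 hn0
      have hbq : 0 ≤ b k q := by linarith
      have h1 : 0 < a * b k q := by linarith
      have h2 : 0 < a * b k (n k) := by linarith
      rcases le_or_gt 0 a with ha | ha
      · have := mul_nonpos_of_nonneg_of_nonpos ha hnk
        linarith
      · have := mul_nonpos_of_nonpos_of_nonneg ha.le hbq
        linarith
    · left
      refine ⟨(a / c + 1) / 2, ?_, ?_⟩
      · have : 0 < a + c := by
          by_contra hneg
          push Not at hneg
          have e : b k q = 1 - b (k + 1) q - b (k + 2) q := by linarith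
          rw [e] at hq1
          nlinarith [mul_nonneg (show 0 ≤ c - a by linarith) (show 0 ≤ 1 / 2 - b (k + 1) q by linarith),
            mul_nonneg (show 0 ≤ -(a + c) by linarith) (show 0 ≤ 1 / 2 - b (k + 2) q by linarith),
            mul_nonneg (show 0 ≤ c - a by linarith) (show 0 ≤ 1 / 2 - b (k + 2) q by linarith),
            mul_nonneg (show 0 ≤ -(a + c) by linarith) (show 0 ≤ 1 / 2 - b (k + 1) q by linarith)]
        have h2 : a / c + 1 = (a + c) / c := by field_simp
        rw [h2]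
        positivity
      · intro x hx
        have h1 := hac x hx
        have h2 := hsumk k x
        have h3 : 0 < (a / c) * b k x + (b (k + 1) x - b (k + 2) x) := by
          have : (a / c) * b k x + (b (k + 1) x - b (k + 2) x) =
              (a * b k x + c * (b (k + 1) x - b (k + 2) x)) / c := by
            field_simp
          rw [this]
          positivity
        linarith
  -- two consecutive minus types are impossible
  have hminus : ∀ k : Fin 3, (∃ z : ℝ, 0 < z ∧ ∀ x ∈ S, 1 / 2 < b (k + 2) x + z * b k x) →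
      (∃ z : ℝ, 0 < z ∧ ∀ x ∈ S, 1 / 2 < b (k + 1 + 2) x + z * b (k + 1) x) → False := by
    rintro k ⟨z, hz, h1⟩ ⟨d, hd, h2⟩
    have e3 : k + 1 + 2 = k := by fin_cases k <;> rfl
    rw [e3] at h2
    have hne1 : k + 2 ≠ k := by fin_cases k <;> decide
    have hne2 : k ≠ k + 1 := by fin_cases k <;> decide
    have hne3 : k ≠ k + 2 := by fin_cases k <;> decide
    exact core S (b k) (b (k + 1)) (b (k + 2)) (hsumk k) (y k) (y (k + 2)) (n k) (n (k + 1)) (n (k + 2))
      (H.hy _) (H.hy _) (H.hn _) (H.hn _) (H.hn _) (H.ymax _) (H.ymax _) (H.n0 _) (H.nj k (k + 2) hne1)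
      (H.nj (k + 1) k hne2) (H.n0 _) (H.nj (k + 2) k hne3) z d hz hd h1 h2
  -- two consecutive plus types are impossible (the reflected case)
  have hplus : ∀ k : Fin 3, (∃ z : ℝ, 0 < z ∧ ∀ x ∈ S, 1 / 2 < b (k + 1) x + z * b k x) →
      (∃ z : ℝ, 0 < z ∧ ∀ x ∈ S, 1 / 2 < b (k + 1 + 1) x + z * b (k + 1) x) → False := by
    rintro k ⟨d, hd, h2⟩ ⟨z, hz, h1⟩
    have e3 : k + 1 + 1 = k + 2 := by fin_cases k <;> rfl
    rw [e3] at h1
    have hne1 : k + 2 ≠ k + 1 := by fin_cases k <;> decide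
    have hne2 : k + 1 ≠ k := by fin_cases k <;> decide
    have hne3 : k + 1 ≠ k + 2 := by fin_cases k <;> decide
    exact core S (b (k + 1)) (b k) (b (k + 2)) (fun x => by have := hsumk k x; linarith)
      (y (k + 1)) (y (k + 2)) (n (k + 1)) (n k) (n (k + 2))
      (H.hy _) (H.hy _) (H.hn _) (H.hn _) (H.hn _) (H.ymax _) (H.ymax _) (H.n0 _) (H.nj (k + 1) (k + 2) hne1)
      (H.nj k (k + 1) hne2) (H.n0 _) (H.nj (k + 2) (k + 1) hne3) z d hz hd h1 h2
  rcases htype 0 with p0 | m0
  · rcases htype 1 with p1 | m1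
    · exact hplus 0 p0 p1
    · rcases htype 2 with p2 | m2
      · exact hplus 2 p2 p0
      · exact hminus 1 m1 m2
  · rcases htype 1 with p1 | m1
    · rcases htype 2 with p2 | m2
      · exact hplus 1 p1 p2
      · exact hminus 2 m2 m0
    · exact hminus 0 m0 m1

end Pool.Agent.H70.TC
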