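import Pool.Agent.H70.TC.Imp

set_option autoImplicit false

/-!
# A colourful Helly theorem: one point pierces all families but two
-/

namespace Pool.Agent.H70.TC

variable {K : Set E} {n : ℕ} {F : Fin n → Set E}

/-- Helly's theorem for four convex sets in the plane. -/
lemma helly4 (G : Fin 4 → Set E) (hG : ∀ i, Convex ℝ (G i)) (h : ∀ i, ∃ x, ∀ j, j ≠ i → x ∈ G j) :
    ∃ x, ∀ j, x ∈ G j := by
  have hfr : Module.finrank ℝ E = 2 := by simp
  have := Convex.helly_theorem (𝕜 := ℝ) (F := G) (s := Finset.univ) (by rw [hfr]; simp) (fun i _ => hG i) (by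
    intro I _ hI
    rw [hfr] at hI
    have hc : (Finset.univ \ I).card = 1 := by
      rw [Finset.card_sdiff_of_subset (Finset.subset_univ _), hI]; simp
    obtain ⟨i, hi⟩ := Finset.card_eq_one.1 hc
    obtain ⟨x, hx⟩ := h i
    refine ⟨x, Set.mem_iInter₂.2 (fun j hj => hx j ?_)⟩
    rintro rfl
    have : j ∈ Finset.univ \ I := by rw [hi]; simp
    exact (Finset.mem_sdiff.1 this).2 hj)
  obtain ⟨x, hx⟩ := this
  exact ⟨x, fun j => Set.mem_iInter₂.1 hx j (Finset.mem_univ j)⟩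

/-- Two points of minimal norm of a convex set are equal. -/
lemma min_unique {A : Set E} (hA : Convex ℝ A) {x y : E} (hx : x ∈ A) (hy : y ∈ A) (h1 : ‖x‖ = ‖y‖)
    (h2 : ∀ z ∈ A, ‖x‖ ≤ ‖z‖) : x = y := by
  by_contra hne
  have hz : (1 / 2 : ℝ) • x + (1 / 2 : ℝ) • y ∈ A := hA hx hy (by norm_num) (by norm_num) (by norm_num)
  have h3 := h2 _ hz
  have h4 : ‖(1 / 2 : ℝ) • x + (1 / 2 : ℝ) • y‖ < ‖x‖ := by
    have := norm_combo_lt_of_ne (le_refl ‖x‖) h1.symm.le hne (show (0 : ℝ) < 1 / 2 by norm_num)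
      (show (0 : ℝ) < 1 / 2 by norm_num) (by norm_num)
    exact this
  linarith

/-- If every three members of three different families have a common point, then one point pierces all families except
two. -/
lemma colourful (hn : 2 ≤ n) (hF : ∀ i, (F i).Finite) (hFne : ∀ i, (F i).Nonempty) (hK : IsCompact K)
    (hKc : Convex ℝ K)
    (hint : ∀ i j : Fin n, i ≠ j → ∀ a ∈ F i, ∀ b ∈ F j, ∃ x ∈ K, ∃ y ∈ K, x + a = y + b)
    (h3 : ∀ (c : Fin 3 → Fin n), Function.Injective c → ∀ a : Fin 3 → E, (∀ k, a k ∈ F (c k)) →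
      ∃ x, x ∈ tr K (a 0) ∧ x ∈ tr K (a 1) ∧ x ∈ tr K (a 2)) :
    ∃ i j : Fin n, ∃ p : E, ∀ r, r ≠ i → r ≠ j → ∀ a ∈ F r, p ∈ tr K a := by
  classical
  -- the points of minimal norm of the intersections of two members
  have hmin : ∀ (i j : Fin n) (a b : E), i ≠ j → a ∈ F i → b ∈ F j →
      ∃ z ∈ tr K a ∩ tr K b, ∀ x ∈ tr K a ∩ tr K b, ‖z‖ ≤ ‖x‖ := by
    intro i j a b hij ha hb
    obtain ⟨x, hx, y, hy, hxy⟩ := hint i j hij a ha b hb
    obtain ⟨z, hz, hz'⟩ := ((tr_compact hK a).inter (tr_compact hK b)).exists_isMinOn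
      ⟨x + a, ⟨x, hx, rfl⟩, ⟨y, hy, hxy.symm⟩⟩ continuous_norm.continuousOn
    exact ⟨z, hz, fun w hw => hz' hw⟩
  -- the finite set of such points
  let S : Set E := {z | ∃ (i j : Fin n) (a b : E), i ≠ j ∧ a ∈ F i ∧ b ∈ F j ∧ z ∈ tr K a ∩ tr K b ∧
    ∀ x ∈ tr K a ∩ tr K b, ‖z‖ ≤ ‖x‖}
  have hSfin : S.Finite := by
    have h1 : S ⊆ ⋃ i : Fin n, ⋃ j : Fin n, ⋃ a ∈ F i, ⋃ b ∈ F j,
        {z | z ∈ tr K a ∩ tr K b ∧ ∀ x ∈ tr K a ∩ tr K b, ‖z‖ ≤ ‖x‖} := by
      rintro z ⟨i, j, a, b, -, ha, hb, hz⟩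
      simp only [Set.mem_iUnion]
      exact ⟨i, j, a, ha, b, hb, hz⟩
    refine Set.Finite.subset ?_ h1
    refine Set.finite_iUnion (fun i => Set.finite_iUnion (fun j => ?_))
    refine Set.Finite.biUnion (hF i) (fun a _ => Set.Finite.biUnion (hF j) (fun b _ => ?_))
    refine Set.Subsingleton.finite ?_
    rintro x ⟨hx1, hx2⟩ y ⟨hy1, hy2⟩
    exact min_unique ((tr_convex hKc a).inter (tr_convex hKc b)) hx1 hy1
      (le_antisymm (hx2 y hy1) (hy2 x hx1)) hx2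
  have hSne : S.Nonempty := by
    obtain ⟨a, ha⟩ := hFne ⟨0, by omega⟩
    obtain ⟨b, hb⟩ := hFne ⟨1, by omega⟩
    have hne : (⟨0, by omega⟩ : Fin n) ≠ ⟨1, by omega⟩ := by
      intro h0; simp at h0
    obtain ⟨z, hz, hz'⟩ := hmin _ _ a b hne ha hb
    exact ⟨z, _, _, a, b, hne, ha, hb, hz, hz'⟩
  obtain ⟨p, ⟨i, j, a, b, hij, ha, hb, hp, hp'⟩, hmax⟩ := hSfin.exists_maximalFor (fun z => ‖z‖) S hSne
  refine ⟨i, j, p, ?_⟩
  intro r hri hrj d hd
  by_contra hpd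
  -- the triple
  obtain ⟨x, hx0, hx1, hx2⟩ := h3 ![i, j, r] (by
    intro s t hst
    fin_cases s <;> fin_cases t <;> first
      | rfl
      | (exfalso; simp at hst; first | exact hij hst | exact hij hst.symm | exact hri hst | exact hri hst.symm | exact hrj hst | exact hrj hst.symm))
    ![a, b, d] (by
      intro k
      fin_cases k
      · exact ha
      · exact hb
      · exact hd)
  have hx0' : x ∈ tr K a := hx0
  have hx1' : x ∈ tr K b := hx1
  have hx2' : x ∈ tr K d := hx2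
  obtain ⟨q, hq, hq'⟩ := (((tr_compact hK a).inter (tr_compact hK b)).inter (tr_compact hK d)).exists_isMinOn
      ⟨x, ⟨hx0', hx1'⟩, hx2'⟩ continuous_norm.continuousOn
  have hpq : ‖p‖ < ‖q‖ := by
    rcases lt_or_eq_of_le (hp' q hq.1) with h0 | h0
    · exact h0
    · exfalso
      have := min_unique ((tr_convex hKc a).inter (tr_convex hKc b)) hp hq.1 h0 hp'
      exact hpd (this ▸ hq.2)
  obtain ⟨s, hs, hs'⟩ := hmin i r a d hri.symm ha hd
  obtain ⟨t, ht, ht'⟩ := hmin j r b d hrj.symm hb hd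
  have hsq : ‖s‖ < ‖q‖ := by
    rcases le_total ‖s‖ ‖p‖ with h0 | h0
    · exact lt_of_le_of_lt h0 hpq
    · exact lt_of_le_of_lt (hmax ⟨i, r, a, d, hri.symm, ha, hd, hs, hs'⟩ h0) hpq
  have htq : ‖t‖ < ‖q‖ := by
    rcases le_total ‖t‖ ‖p‖ with h0 | h0
    · exact lt_of_le_of_lt h0 hpq
    · exact lt_of_le_of_lt (hmax ⟨j, r, b, d, hrj.symm, hb, hd, ht, ht'⟩ h0) hpq
  obtain ⟨w, hw⟩ := helly4 ![tr K a, tr K b, tr K d, Metric.ball 0 ‖q‖] (by
    intro k
    fin_cases k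
    · exact tr_convex hKc a
    · exact tr_convex hKc b
    · exact tr_convex hKc d
    · exact convex_ball _ _) (by
    intro k
    fin_cases k
    · refine ⟨t, fun l hl => ?_⟩
      fin_cases l
      · exact absurd rfl hl
      · exact ht.1
      · exact ht.2
      · show t ∈ Metric.ball 0 ‖q‖
        rw [mem_ball_zero_iff]; exact htq
    · refine ⟨s, fun l hl => ?_⟩
      fin_cases l
      · exact hs.1
      · exact absurd rfl hl
      · exact hs.2
      · show s ∈ Metric.ball 0 ‖q‖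
        rw [mem_ball_zero_iff]; exact hsq
    · refine ⟨p, fun l hl => ?_⟩
      fin_cases l
      · exact hp.1
      · exact hp.2
      · exact absurd rfl hl
      · show p ∈ Metric.ball 0 ‖q‖
        rw [mem_ball_zero_iff]; exact hpq
    · refine ⟨x, fun l hl => ?_⟩
      fin_cases l
      · exact hx0'
      · exact hx1'
      · exact hx2'
      · exact absurd rfl hl)
  have hw3 : w ∈ Metric.ball (0 : E) ‖q‖ := hw 3
  rw [mem_ball_zero_iff] at hw3
  have : ‖q‖ ≤ ‖w‖ := hq' (show w ∈ (tr K a ∩ tr K b) ∩ tr K d from ⟨⟨hw 0, hw 1⟩, hw 2⟩)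
  linarith

end Pool.Agent.H70.TC
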