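import Pool.Agent.H70.TC.Imp

set_option autoImplicit false

/-!
# Three pairwise intersecting convex sets without a common point enclose a triangle
-/

namespace Pool.Agent.H70.TC

variable {K : Set E} {n : ℕ} {F : Fin n → Set E}

/-- A matrix with nonpositive off-diagonal entries and equal positive row sums has positive determinant. -/
lemma det_pos {σ a b c d e f : ℝ} (hσ : 0 < σ) (ha : 0 ≤ a) (hb : 0 ≤ b) (hc : 0 ≤ c) (hd : 0 ≤ d) (he : 0 ≤ e)
    (hf : 0 ≤ f) :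
    0 < (σ + a + b) * ((σ + c + d) * (σ + e + f) - d * f) + a * (-c * (σ + e + f) - d * e) -
      b * (c * f + (σ + c + d) * e) := by
  have h : (σ + a + b) * ((σ + c + d) * (σ + e + f) - d * f) + a * (-c * (σ + e + f) - d * e) -
      b * (c * f + (σ + c + d) * e) = σ ^ 3 + (σ ^ 2 * (a + b + c + d + e + f) +
      σ * (c * e + c * f + d * e + a * f + a * e + b * f + b * d + b * c + a * d)) := by ring
  rw [h]
  positivity

/-- Three functionals with sum `0` that separate three convex compact sets without common point. -/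
lemma separate {A B C : Set E} (hA : IsCompact A) (hB : IsCompact B) (hC : IsCompact C) (cA : Convex ℝ A)
    (cB : Convex ℝ B) (cC : Convex ℝ C) (h : ¬ ∃ x, x ∈ A ∧ x ∈ B ∧ x ∈ C) :
    ∃ f g : E →L[ℝ] ℝ, ∀ x ∈ A, ∀ y ∈ B, ∀ z ∈ C, 0 < f x + g y - (f z + g z) := by
  let L : ((E × E) × E) →ₗ[ℝ] (E × E) :=
    { toFun := fun p => (p.1.1 - p.2, p.1.2 - p.2)
      map_add' := by intro p q; ext <;> simp <;> ring
      map_smul' := by intro t p; ext <;> simp <;> ring }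
  have hLc : Continuous L := by
    show Continuous (fun p : (E × E) × E => (p.1.1 - p.2, p.1.2 - p.2))
    fun_prop
  have hcomp : IsCompact (L '' ((A ×ˢ B) ×ˢ C)) := ((hA.prod hB).prod hC).image hLc
  have hconv : Convex ℝ (L '' ((A ×ˢ B) ×ˢ C)) := ((cA.prod cB).prod cC).linear_image L
  have h0 : (0 : E × E) ∉ L '' ((A ×ˢ B) ×ˢ C) := by
    rintro ⟨⟨⟨x, y⟩, z⟩, ⟨⟨hx, hy⟩, hz⟩, hxyz⟩
    have e1 : x - z = 0 := congrArg Prod.fst hxyz
    have e2 : y - z = 0 := congrArg Prod.snd hxyz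
    rw [sub_eq_zero] at e1 e2
    exact h ⟨z, e1 ▸ hx, e2 ▸ hy, hz⟩
  obtain ⟨φ, u, hu, hφ⟩ := geometric_hahn_banach_point_closed hconv hcomp.isClosed h0
  refine ⟨φ.comp (ContinuousLinearMap.inl ℝ E E), φ.comp (ContinuousLinearMap.inr ℝ E E), ?_⟩
  intro x hx y hy z hz
  have h1 := hφ (L ((x, y), z)) ⟨((x, y), z), ⟨⟨hx, hy⟩, hz⟩, rfl⟩
  have h2 : φ (L ((x, y), z)) = φ (x, 0) + φ (0, y) - (φ (z, 0) + φ (0, z)) := by
    rw [← map_add, ← map_add, ← map_sub]
    congr 1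
    show (x - z, y - z) = _
    ext <;> simp
  rw [map_zero] at hu
  simp only [ContinuousLinearMap.comp_apply, ContinuousLinearMap.inl_apply, ContinuousLinearMap.inr_apply]
  linarith

/-- The vertices of the triangle bounded by the lines `f = p`, `g = q`, `-(f+g) = r`. -/
lemma vertices (α0 β0 α1 β1 p q r : ℝ) (hδ : α0 * β1 - α1 * β0 ≠ 0) (hσ : 0 < p + q + r) :
    ∃ V0 V1 V2 : E, ar V0 V1 V2 ≠ 0 ∧ ∀ x : E,
      ar x V1 V2 = ar V0 V1 V2 * ((p - (α0 * x 0 + β0 * x 1)) / (p + q + r)) ∧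
      ar x V2 V0 = ar V0 V1 V2 * ((q - (α1 * x 0 + β1 * x 1)) / (p + q + r)) ∧
      ar x V0 V1 = ar V0 V1 V2 * ((r + (α0 * x 0 + β0 * x 1) + (α1 * x 0 + β1 * x 1)) / (p + q + r)) := by
  set δ := α0 * β1 - α1 * β0 with hδ'
  have hσ' := hσ.ne'
  -- V0 : g = q, f + g = - r ; V1 : f = p, f + g = - r ; V2 : f = p, g = q
  let V0 : E := !₂[((-r - q) * β1 - q * β0) / δ, (α0 * q - α1 * (-r - q)) / δ]
  let V1 : E := !₂[(p * β1 - (-r - p) * β0) / δ, (α0 * (-r - p) - α1 * p) / δ]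
  let V2 : E := !₂[(p * β1 - q * β0) / δ, (α0 * q - α1 * p) / δ]
  have v00 : V0 0 = ((-r - q) * β1 - q * β0) / δ := by simp [V0]
  have v01 : V0 1 = (α0 * q - α1 * (-r - q)) / δ := by simp [V0]
  have v10 : V1 0 = (p * β1 - (-r - p) * β0) / δ := by simp [V1]
  have v11 : V1 1 = (α0 * (-r - p) - α1 * p) / δ := by simp [V1]
  have v20 : V2 0 = (p * β1 - q * β0) / δ := by simp [V2]
  have v21 : V2 1 = (α0 * q - α1 * p) / δ := by simp [V2]
  have hD : ar V0 V1 V2 = (p + q + r) ^ 2 / δ := by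
    unfold ar
    rw [v00, v01, v10, v11, v20, v21]
    field_simp
    rw [hδ']
    ring
  refine ⟨V0, V1, V2, ?_, ?_⟩
  · rw [hD]
    exact div_ne_zero (pow_ne_zero _ hσ') hδ
  · intro x
    rw [hD]
    refine ⟨?_, ?_, ?_⟩
    · unfold ar
      rw [v10, v11, v20, v21]
      field_simp
      rw [hδ']
      ring
    · unfold ar
      rw [v00, v01, v20, v21]
      field_simp
      rw [hδ']
      ring
    · unfold ar
      rw [v10, v11, v00, v01]
      field_simp
      rw [hδ']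
      ring

/-- If three members of different families have no common point, then some triangle with positive area lies between
three members of different families. -/
lemma exists_conf (hK : IsCompact K) (hKne : K.Nonempty) (hKc : Convex ℝ K)
    (hint : ∀ i j : Fin n, i ≠ j → ∀ a ∈ F i, ∀ b ∈ F j, ∃ x ∈ K, ∃ y ∈ K, x + a = y + b)
    (c : Fin 3 → Fin n) (hc : Function.Injective c) (a : Fin 3 → E) (ha : ∀ k, a k ∈ F (c k))
    (h : ¬ ∃ x, x ∈ tr K (a 0) ∧ x ∈ tr K (a 1) ∧ x ∈ tr K (a 2)) :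
    ∃ V c a, Conf K F V c a ∧ 0 < AR V := by
  obtain ⟨f, g, hfg⟩ := separate (tr_compact hK (a 0)) (tr_compact hK (a 1)) (tr_compact hK (a 2))
    (tr_convex hKc (a 0)) (tr_convex hKc (a 1)) (tr_convex hKc (a 2)) h
  obtain ⟨m0, hm0, hm0'⟩ := (tr_compact hK (a 0)).exists_isMinOn (hKne.image _) f.continuous.continuousOn
  obtain ⟨m1, hm1, hm1'⟩ := (tr_compact hK (a 1)).exists_isMinOn (hKne.image _) g.continuous.continuousOn
  obtain ⟨m2, hm2, hm2'⟩ := (tr_compact hK (a 2)).exists_isMaxOn (hKne.image _) (f + g).continuous.continuousOn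
  have hp : ∀ x ∈ tr K (a 0), f m0 ≤ f x := fun x hx => hm0' hx
  have hq : ∀ x ∈ tr K (a 1), g m1 ≤ g x := fun x hx => hm1' hx
  have hr : ∀ x ∈ tr K (a 2), f x + g x ≤ f m2 + g m2 := fun x hx => hm2' hx
  set p := f m0 with hpdef
  set q := g m1 with hqdef
  set r := -(f m2 + g m2) with hrdef
  have hσ : 0 < p + q + r := by
    have := hfg m0 hm0 m1 hm1 m2 hm2
    rw [hrdef]; linarith
  -- coordinates of the functionals
  have hlin : ∀ φ : E →L[ℝ] ℝ, ∃ α β : ℝ, ∀ x : E, φ x = α * x 0 + β * x 1 := by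
    intro φ
    refine ⟨φ !₂[1, 0], φ !₂[0, 1], ?_⟩
    intro x
    have e : x = x 0 • (!₂[1, 0] : E) + x 1 • (!₂[0, 1] : E) := by
      apply ext2
      · simp
      · simp
    conv_lhs => rw [e]
    simp only [map_add, map_smul, smul_eq_mul]
    ring
  obtain ⟨α0, β0, hf⟩ := hlin f
  obtain ⟨α1, β1, hg⟩ := hlin g
  -- pairwise common points
  have h01 : ∃ z, z ∈ tr K (a 0) ∧ z ∈ tr K (a 1) := by
    obtain ⟨x, hx, y, hy, hxy⟩ := hint (c 0) (c 1) (fun h0 => by simpa using hc h0) _ (ha 0) _ (ha 1)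
    exact ⟨x + a 0, ⟨x, hx, rfl⟩, ⟨y, hy, hxy.symm⟩⟩
  have h12 : ∃ z, z ∈ tr K (a 1) ∧ z ∈ tr K (a 2) := by
    obtain ⟨x, hx, y, hy, hxy⟩ := hint (c 1) (c 2) (fun h0 => by simpa using hc h0) _ (ha 1) _ (ha 2)
    exact ⟨x + a 1, ⟨x, hx, rfl⟩, ⟨y, hy, hxy.symm⟩⟩
  have h20 : ∃ z, z ∈ tr K (a 2) ∧ z ∈ tr K (a 0) := by
    obtain ⟨x, hx, y, hy, hxy⟩ := hint (c 2) (c 0) (fun h0 => by simpa using hc h0) _ (ha 2) _ (ha 0)
    exact ⟨x + a 2, ⟨x, hx, rfl⟩, ⟨y, hy, hxy.symm⟩⟩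
  obtain ⟨z2, hz20, hz21⟩ := h01
  obtain ⟨z0, hz01, hz02⟩ := h12
  obtain ⟨z1, hz12, hz10⟩ := h20
  have i1 := hp z2 hz20
  have i2 := hq z2 hz21
  have i3 := hq z0 hz01
  have i4 := hr z0 hz02
  have i5 := hr z1 hz12
  have i6 := hp z1 hz10
  have hδ : α0 * β1 - α1 * β0 ≠ 0 := by
    intro h0
    have hd := det_pos (σ := p + q + r) (a := -(q - g z0)) (b := -(r + (f z0 + g z0))) (c := -(p - f z1))
      (d := -(r + (f z1 + g z1))) (e := -(p - f z2)) (f := -(q - g z2)) hσ (by linarith)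
      (by rw [hrdef]; linarith) (by linarith) (by rw [hrdef]; linarith) (by linarith) (by linarith)
    have key : (p + q + r + -(q - g z0) + -(r + (f z0 + g z0))) *
        ((p + q + r + -(p - f z1) + -(r + (f z1 + g z1))) * (p + q + r + -(p - f z2) + -(q - g z2)) -
          -(r + (f z1 + g z1)) * -(q - g z2)) +
        -(q - g z0) * (-(-(p - f z1)) * (p + q + r + -(p - f z2) + -(q - g z2)) -
          -(r + (f z1 + g z1)) * -(p - f z2)) -
        -(r + (f z0 + g z0)) * (-(p - f z1) * -(q - g z2) +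
          (p + q + r + -(p - f z1) + -(r + (f z1 + g z1))) * -(p - f z2)) =
        (p + q + r) * (α0 * β1 - α1 * β0) * ar z0 z1 z2 := by
      rw [hf, hf, hf, hg, hg, hg]
      unfold ar
      ring
    rw [key, h0, mul_zero, zero_mul] at hd
    exact lt_irrefl _ hd
  obtain ⟨V0, V1, V2, hne, hV⟩ := vertices α0 β0 α1 β1 p q r hδ hσ
  have s0 : ∀ x ∈ tr K (a 0), (p - (α0 * x 0 + β0 * x 1)) / (p + q + r) ≤ 0 := by
    intro x hx
    have := hp x hx
    rw [hf] at this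
    exact div_nonpos_of_nonpos_of_nonneg (by linarith) hσ.le
  have s1 : ∀ x ∈ tr K (a 1), (q - (α1 * x 0 + β1 * x 1)) / (p + q + r) ≤ 0 := by
    intro x hx
    have := hq x hx
    rw [hg] at this
    exact div_nonpos_of_nonpos_of_nonneg (by linarith) hσ.le
  have s2 : ∀ x ∈ tr K (a 2), (r + (α0 * x 0 + β0 * x 1) + (α1 * x 0 + β1 * x 1)) / (p + q + r) ≤ 0 := by
    intro x hx
    have h1 := hr x hx
    have h2 := hf x
    have h3 := hg x
    exact div_nonpos_of_nonpos_of_nonneg (by rw [hrdef]; linarith) hσ.le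
  rcases lt_or_gt_of_ne hne with hneg | hpos
  · refine ⟨![V0, V2, V1], ![c 0, c 2, c 1], ![a 0, a 2, a 1], ⟨?_, ?_, ?_⟩, ?_⟩
    · intro i j hij
      fin_cases i <;> fin_cases j <;> first | rfl | (exfalso; have := hc hij; revert this; decide)
    · intro k
      fin_cases k
      · exact ha 0
      · exact ha 2
      · exact ha 1
    · intro k x hx
      fin_cases k
      · show ar (x + a 0) V2 V1 ≤ 0
        have h1 := (hV (x + a 0)).1
        have h2 := s0 (x + a 0) ⟨x, hx, rfl⟩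
        have h3 : ar (x + a 0) V2 V1 = - ar (x + a 0) V1 V2 := by unfold ar; ring
        rw [h3, h1]
        have := mul_nonneg_of_nonpos_of_nonpos hneg.le h2
        linarith
      · show ar (x + a 2) V1 V0 ≤ 0
        have h1 := (hV (x + a 2)).2.2
        have h2 := s2 (x + a 2) ⟨x, hx, rfl⟩
        have h3 : ar (x + a 2) V1 V0 = - ar (x + a 2) V0 V1 := by unfold ar; ring
        rw [h3, h1]
        have := mul_nonneg_of_nonpos_of_nonpos hneg.le h2
        linarith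
      · show ar (x + a 1) V0 V2 ≤ 0
        have h1 := (hV (x + a 1)).2.1
        have h2 := s1 (x + a 1) ⟨x, hx, rfl⟩
        have h3 : ar (x + a 1) V0 V2 = - ar (x + a 1) V2 V0 := by unfold ar; ring
        rw [h3, h1]
        have := mul_nonneg_of_nonpos_of_nonpos hneg.le h2
        linarith
    · show 0 < ar V0 V2 V1
      have h3 : ar V0 V2 V1 = - ar V0 V1 V2 := by unfold ar; ring
      rw [h3]; linarith
  · refine ⟨![V0, V1, V2], c, a, ⟨hc, ha, ?_⟩, hpos⟩
    intro k x hx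
    fin_cases k
    · show ar (x + a 0) V1 V2 ≤ 0
      rw [(hV (x + a 0)).1]
      exact mul_nonpos_of_nonneg_of_nonpos hpos.le (s0 (x + a 0) ⟨x, hx, rfl⟩)
    · show ar (x + a 1) V2 V0 ≤ 0
      rw [(hV (x + a 1)).2.1]
      exact mul_nonpos_of_nonneg_of_nonpos hpos.le (s1 (x + a 1) ⟨x, hx, rfl⟩)
    · show ar (x + a 2) V0 V1 ≤ 0
      rw [(hV (x + a 2)).2.2]
      exact mul_nonpos_of_nonneg_of_nonpos hpos.le (s2 (x + a 2) ⟨x, hx, rfl⟩)

end Pool.Agent.H70.TC
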