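import Pool.Agent.H70.TC.Max

set_option autoImplicit false

/-!
# Improving a triangle; the midpoints of the sides of a largest triangle
-/

namespace Pool.Agent.H70.TC

variable {K : Set E} {n : ℕ} {F : Fin n → Set E}

lemma fin3_cases (k i : Fin 3) : i = k ∨ i = k + 1 ∨ i = k + 2 := by
  fin_cases k <;> fin_cases i <;> decide

/-- Replacing the member beyond the side `k` by a member beyond the line `f = u`. -/
lemma Conf.improve {V : Fin 3 → E} {c : Fin 3 → Fin n} {a : Fin 3 → E} (h : Conf K F V c a) (hD : 0 < AR V)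
    (k : Fin 3) (r : Fin n) (hr : ∀ i, i ≠ k → c i ≠ r) (a' : E) (ha' : a' ∈ F r) (f : E →L[ℝ] ℝ) (u : ℝ)
    (h0 : f (V k) < u) (h1 : f (V k) < f (V (k + 1))) (h2 : f (V k) < f (V (k + 2)))
    (h3 : f (V (k + 1)) + f (V (k + 2)) < 2 * u) (h4 : ∀ x ∈ K, u ≤ f (x + a')) :
    ∃ V' c' a', Conf K F V' c' a' ∧ AR V < AR V' := by
  have hD' : 0 < ar (V k) (V (k + 1)) (V (k + 2)) := by rw [AR_eq]; exact hD
  obtain ⟨t, s, ht, hs, hlt, hx⟩ := cut (V k) (V (k + 1)) (V (k + 2)) hD' f u h0 h1 h2 h3
  have n1 : k ≠ k + 1 := by fin_cases k <;> decide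
  have n2 : k ≠ k + 2 := by fin_cases k <;> decide
  have n3 : k + 1 ≠ k + 2 := by fin_cases k <;> decide
  have e1 : k + 1 + 1 = k + 2 := by fin_cases k <;> rfl
  have e2 : k + 1 + 2 = k := by fin_cases k <;> rfl
  have e3 : k + 2 + 1 = k := by fin_cases k <;> rfl
  have e4 : k + 2 + 2 = k + 1 := by fin_cases k <;> rfl
  set B' := V k + t • (V (k + 1) - V k) with hB'
  set C' := V k + s • (V (k + 2) - V k) with hC'
  set V' : Fin 3 → E := Function.update (Function.update (fun _ => V k) (k + 1) B') (k + 2) C' with hV'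
  have v0 : V' k = V k := by
    rw [hV', Function.update_of_ne n2, Function.update_of_ne n1]
  have v1 : V' (k + 1) = B' := by
    rw [hV', Function.update_of_ne n3, Function.update_self]
  have v2 : V' (k + 2) = C' := by
    rw [hV', Function.update_self]
  refine ⟨V', Function.update c k r, Function.update a k a', ⟨?_, ?_, ?_⟩, ?_⟩
  · intro i j hij
    by_contra hne
    by_cases hi : i = k
    · have hj : j ≠ k := fun h0 => hne (by rw [hi, h0])
      rw [hi, Function.update_self, Function.update_of_ne hj] at hij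
      exact hr j hj hij.symm
    · by_cases hj : j = k
      · rw [hj, Function.update_self, Function.update_of_ne hi] at hij
        exact hr i hi hij
      · rw [Function.update_of_ne hi, Function.update_of_ne hj] at hij
        exact hne (h.inj hij)
  · intro i
    by_cases hi : i = k
    · rw [hi, Function.update_self, Function.update_self]; exact ha'
    · rw [Function.update_of_ne hi, Function.update_of_ne hi]; exact h.mem i
  · intro i x hxK
    rcases fin3_cases k i with rfl | rfl | rfl
    · rw [Function.update_self, v1, v2]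
      exact (hx _).2.2 (h4 x hxK)
    · rw [Function.update_of_ne n1.symm, e1, e2, v2, v0, (hx _).1]
      have := h.side (k + 1) x hxK
      rw [e1, e2] at this
      exact mul_nonpos_of_nonneg_of_nonpos hs.le this
    · rw [Function.update_of_ne n2.symm, e3, e4, v1, v0, (hx _).2.1]
      have := h.side (k + 2) x hxK
      rw [e3, e4] at this
      exact mul_nonpos_of_nonneg_of_nonpos ht.le this
  · rw [← AR_eq V' k, ← AR_eq V k, v0, v1, v2]
    exact hlt

/-- The midpoint of the side `k`. -/
noncomputable def mid (V : Fin 3 → E) (k : Fin 3) : E := (1 / 2 : ℝ) • V (k + 1) + (1 / 2 : ℝ) • V (k + 2)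

lemma f_mid (f : E →L[ℝ] ℝ) (V : Fin 3 → E) (k : Fin 3) : f (mid V k) = (f (V (k + 1)) + f (V (k + 2))) / 2 := by
  simp only [mid, map_add, map_smul, smul_eq_mul]; ring

/-- A linear functional that differs from `- ar x (V (k+1)) (V (k+2))` by a constant. -/
noncomputable def sdf (V : Fin 3 → E) (k : Fin 3) : E →L[ℝ] ℝ :=
  LinearMap.toContinuousLinearMap
    { toFun := fun x => x 0 * (V (k + 2) 1 - V (k + 1) 1) - x 1 * (V (k + 2) 0 - V (k + 1) 0)
      map_add' := by intro x y; simp; ring
      map_smul' := by intro t x; simp; ring }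

lemma sdf_apply (V : Fin 3 → E) (k : Fin 3) (x y : E) :
    sdf V k x - sdf V k y = ar y (V (k + 1)) (V (k + 2)) - ar x (V (k + 1)) (V (k + 2)) := by
  have h : ∀ z : E, sdf V k z = z 0 * (V (k + 2) 1 - V (k + 1) 1) - z 1 * (V (k + 2) 0 - V (k + 1) 0) :=
    fun z => rfl
  rw [h, h]
  unfold ar
  ring

/-- The translate `K + a`. -/
def tr (K : Set E) (a : E) : Set E := (fun x => x + a) '' K

lemma tr_compact (hK : IsCompact K) (a : E) : IsCompact (tr K a) := hK.image (by fun_prop)

lemma tr_convex (hK : Convex ℝ K) (a : E) : Convex ℝ (tr K a) := by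
  have e : tr K a = (fun x => a + x) '' K := by
    unfold tr
    ext x
    simp only [Set.mem_image]
    constructor
    · rintro ⟨y, hy, rfl⟩; exact ⟨y, hy, add_comm _ _⟩
    · rintro ⟨y, hy, rfl⟩; exact ⟨y, hy, add_comm _ _⟩
  rw [e]
  exact hK.translate a

/-- In a largest triangle the midpoint of the side `k` belongs to the member beyond this side. -/
lemma Conf.mid_mem {V : Fin 3 → E} {c : Fin 3 → Fin n} {a : Fin 3 → E} (h : Conf K F V c a) (hD : 0 < AR V)
    (hK : IsCompact K) (hKc : Convex ℝ K)
    (hmax : ∀ V' c' a', Conf K F V' c' a' → AR V' ≤ AR V) (k : Fin 3) : mid V k ∈ tr K (a k) := by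
  by_contra hcon
  obtain ⟨f, u, hu, hf⟩ := geometric_hahn_banach_point_closed (tr_convex hKc (a k))
    (tr_compact hK (a k)).isClosed hcon
  rw [f_mid] at hu
  set L := sdf V k with hL
  have hLAB : L (V k) - L (V (k + 1)) = - AR V := by
    rw [hL, sdf_apply, AR_eq]
    have : ar (V (k + 1)) (V (k + 1)) (V (k + 2)) = 0 := by unfold ar; ring
    rw [this]; ring
  have hLBC : L (V (k + 2)) = L (V (k + 1)) := by
    have := sdf_apply V k (V (k + 2)) (V (k + 1))
    have e1 : ar (V (k + 1)) (V (k + 1)) (V (k + 2)) = 0 := by unfold ar; ring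
    have e2 : ar (V (k + 2)) (V (k + 1)) (V (k + 2)) = 0 := by unfold ar; ring
    rw [e1, e2] at this
    linarith
  set A := f (V k) with hA
  set B := f (V (k + 1)) with hB
  set C := f (V (k + 2)) with hC
  set N := 1 + |A - u| + |A - B| + |A - C| with hN
  have hNpos : 0 < N := by positivity
  set s := AR V / N with hs
  have hspos : 0 < s := by positivity
  have hsN : s * N = AR V := by rw [hs]; field_simp
  have b1 : s * (A - u) < AR V := by
    rw [← hsN]
    refine mul_lt_mul_of_pos_left ?_ hspos
    have := le_abs_self (A - u)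
    have := abs_nonneg (A - B)
    have := abs_nonneg (A - C)
    linarith
  have b2 : s * (A - B) < AR V := by
    rw [← hsN]
    refine mul_lt_mul_of_pos_left ?_ hspos
    have := le_abs_self (A - B)
    have := abs_nonneg (A - u)
    have := abs_nonneg (A - C)
    linarith
  have b3 : s * (A - C) < AR V := by
    rw [← hsN]
    refine mul_lt_mul_of_pos_left ?_ hspos
    have := le_abs_self (A - C)
    have := abs_nonneg (A - u)
    have := abs_nonneg (A - B)
    linarith
  obtain ⟨V', c', a', h', hlt⟩ := h.improve hD k (c k) (fun i hi h0 => hi (h.inj h0)) (a k) (h.mem k)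
    (L + s • f) (L (V (k + 1)) + s * u)
    (by
      simp only [add_apply, smul_apply, smul_eq_mul]
      rw [← hA]; linarith)
    (by
      simp only [add_apply, smul_apply, smul_eq_mul]
      rw [← hA, ← hB]; linarith)
    (by
      simp only [add_apply, smul_apply, smul_eq_mul]
      rw [← hA, ← hC, hLBC]; linarith)
    (by
      simp only [add_apply, smul_apply, smul_eq_mul]
      rw [← hB, ← hC, hLBC]
      have := mul_lt_mul_of_pos_left (show B + C < 2 * u by linarith) hspos
      linarith)
    (by
      intro x hx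
      simp only [add_apply, smul_apply, smul_eq_mul]
      have e1 := sdf_apply V k (x + a k) (V (k + 1))
      have e2 := h.side k x hx
      have e3 : ar (V (k + 1)) (V (k + 1)) (V (k + 2)) = 0 := by unfold ar; ring
      have e4 := hf (x + a k) ⟨x, hx, rfl⟩
      have e5 := mul_lt_mul_of_pos_left e4 hspos
      rw [← hL] at e1
      linarith)
  have := hmax V' c' a' h'
  linarith

/-- In a largest triangle every member of a fourth family meets the medial triangle. -/
lemma Conf.meets {V : Fin 3 → E} {c : Fin 3 → Fin n} {a : Fin 3 → E} (h : Conf K F V c a) (hD : 0 < AR V)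
    (hK : IsCompact K) (hKne : K.Nonempty) (hKc : Convex ℝ K)
    (hmax : ∀ V' c' a', Conf K F V' c' a' → AR V' ≤ AR V) (r : Fin n) (hr : ∀ i, c i ≠ r) (a' : E)
    (ha' : a' ∈ F r) : ∃ q ∈ tr K a', q ∈ convexHull ℝ (Set.range (mid V)) := by
  by_contra hcon
  push Not at hcon
  have hdisj : Disjoint (convexHull ℝ (Set.range (mid V))) (tr K a') := by
    rw [Set.disjoint_left]
    intro q h1 h2
    exact hcon q h2 h1
  obtain ⟨f, u, v, hu, huv, hv⟩ := geometric_hahn_banach_compact_closed (convex_convexHull ℝ (Set.range (mid V)))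
    ((Set.finite_range (mid V)).isCompact_convexHull ℝ) (tr_convex hKc a') (tr_compact hK a').isClosed hdisj
  have hmid : ∀ k, f (mid V k) < u := fun k => hu _ (subset_convexHull ℝ _ ⟨k, rfl⟩)
  simp only [f_mid] at hmid
  obtain ⟨k, hk⟩ := Finite.exists_min (fun k => f (V k))
  set L := sdf V k with hL
  have hLAB : L (V k) - L (V (k + 1)) = - AR V := by
    rw [hL, sdf_apply, AR_eq]
    have : ar (V (k + 1)) (V (k + 1)) (V (k + 2)) = 0 := by unfold ar; ring
    rw [this]; ring
  have hLBC : L (V (k + 2)) = L (V (k + 1)) := by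
    have := sdf_apply V k (V (k + 2)) (V (k + 1))
    have e1 : ar (V (k + 1)) (V (k + 1)) (V (k + 2)) = 0 := by unfold ar; ring
    have e2 : ar (V (k + 2)) (V (k + 1)) (V (k + 2)) = 0 := by unfold ar; ring
    rw [e1, e2] at this
    linarith
  obtain ⟨z, hz, hzmin⟩ := (tr_compact hK a').exists_isMinOn (hKne.image _) L.continuous.continuousOn
  set m := L z with hm
  set N := 1 + |L (V (k + 1)) - m| with hN
  have hNpos : 0 < N := by positivity
  set s := (v - u) / N with hs
  have hspos : 0 < s := div_pos (by linarith) hNpos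
  have hsN : s * N = v - u := by rw [hs]; field_simp
  have b1 : s * (L (V (k + 1)) - m) < v - u := by
    rw [← hsN]
    refine mul_lt_mul_of_pos_left ?_ hspos
    have := le_abs_self (L (V (k + 1)) - m)
    linarith
  have m0 := hmid k
  have m1 := hmid (k + 1)
  have m2 := hmid (k + 2)
  have e1 : k + 1 + 1 = k + 2 := by fin_cases k <;> rfl
  have e2 : k + 1 + 2 = k := by fin_cases k <;> rfl
  have e3 : k + 2 + 1 = k := by fin_cases k <;> rfl
  have e4 : k + 2 + 2 = k + 1 := by fin_cases k <;> rfl
  rw [e1, e2] at m1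
  rw [e3, e4] at m2
  have k1 := hk (k + 1)
  have k2 := hk (k + 2)
  set A := f (V k) with hA
  set B := f (V (k + 1)) with hB
  set C := f (V (k + 2)) with hC
  have hsD : 0 < s * AR V := mul_pos hspos hD
  have hsL : s * (L (V k) - L (V (k + 1))) = - (s * AR V) := by rw [hLAB]; ring
  obtain ⟨V', c', a'', h', hlt⟩ := h.improve hD k r (fun i _ => hr i) a' ha'
    (f + s • L) (v + s * m)
    (by
      simp only [add_apply, smul_apply, smul_eq_mul]
      rw [← hA]; linarith)
    (by
      simp only [add_apply, smul_apply, smul_eq_mul]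
      rw [← hA, ← hB]; linarith)
    (by
      simp only [add_apply, smul_apply, smul_eq_mul]
      rw [← hA, ← hC, hLBC]; linarith)
    (by
      simp only [add_apply, smul_apply, smul_eq_mul]
      rw [← hB, ← hC, hLBC]
      linarith)
    (by
      intro x hx
      simp only [add_apply, smul_apply, smul_eq_mul]
      have e5 := hv (x + a') ⟨x, hx, rfl⟩
      have e6 : m ≤ L (x + a') := hzmin (show x + a' ∈ tr K a' from ⟨x, hx, rfl⟩)
      have e7 := mul_le_mul_of_nonneg_left e6 hspos.le
      linarith)
  have := hmax V' c' a'' h'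
  linarith

end Pool.Agent.H70.TC
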