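import Pool.Agent.H70.TC.Tpt
import Pool.Agent.H70.TC.Hole
import Pool.Agent.H70.TC.Hel

set_option autoImplicit false
open scoped Pointwise

/-!
# Three points pierce all families except at most three
-/

namespace Pool.Agent.H70.TC

variable {K : Set E} {n : ℕ}

/-- The theorem for finite families. -/
lemma finite_version (hn : 2 ≤ n) (F : Fin n → Set E) (hF : ∀ i, (F i).Finite) (hFne : ∀ i, (F i).Nonempty)
    (hK : IsCompact K) (hKne : K.Nonempty) (hKc : Convex ℝ K)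
    (hint : ∀ i j : Fin n, i ≠ j → ∀ a ∈ F i, ∀ b ∈ F j, ∃ x ∈ K, ∃ y ∈ K, x + a = y + b) :
    ∃ M : Finset (Fin n), M.card ≤ 3 ∧ ∃ P : Fin 3 → E, ∀ r, r ∉ M → ∀ a ∈ F r, ∃ k, P k ∈ tr K a := by
  classical
  by_cases h : ∃ c : Fin 3 → Fin n, Function.Injective c ∧ ∃ a : Fin 3 → E, (∀ k, a k ∈ F (c k)) ∧
      ¬ ∃ x, x ∈ tr K (a 0) ∧ x ∈ tr K (a 1) ∧ x ∈ tr K (a 2)
  · obtain ⟨c, hc, a, ha, hne⟩ := h
    have hex := exists_conf hK hKne hKc hint c hc a ha hne
    -- a bound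
    obtain ⟨R, hR⟩ : ∃ R : ℝ, ∀ i, ∀ a ∈ F i, ∀ x ∈ K, ‖x + a‖ ≤ R := by
      have hfin : (⋃ i, F i).Finite := Set.finite_iUnion hF
      obtain ⟨R1, hR1⟩ := hfin.isBounded.exists_norm_le
      obtain ⟨R2, hR2⟩ := hK.isBounded.exists_norm_le
      refine ⟨R2 + R1, fun i a ha x hx => (norm_add_le _ _).trans (add_le_add (hR2 x hx) (hR1 a ?_))⟩
      exact Set.mem_iUnion.2 ⟨i, ha⟩
    obtain ⟨V, c', a', hV, hD, hmax⟩ := exists_max hF hint R hR hex
    refine ⟨Finset.univ.image c', ?_, mid V, ?_⟩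
    · exact Finset.card_image_le.trans (by simp)
    · intro r hr a ha
      refine hV.three hD hK hKne hKc hint hmax r ?_ a ha
      intro i hi
      exact hr (Finset.mem_image.2 ⟨i, Finset.mem_univ i, hi⟩)
  · push Not at h
    obtain ⟨i, j, p, hp⟩ := colourful hn hF hFne hK hKc hint (fun c hc a ha => h c hc a ha)
    refine ⟨{i, j}, Finset.card_le_two.trans (by norm_num), fun _ => p, ?_⟩
    intro r hr a ha
    rw [Finset.mem_insert, Finset.mem_singleton, not_or] at hr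
    exact ⟨0, hp r hr.1 hr.2 a ha⟩

/-- The theorem for arbitrary families. -/
lemma main (hn : 2 ≤ n) (F : Fin n → Set E) (hFne : ∀ i, (F i).Nonempty)
    (hK : IsCompact K) (hKne : K.Nonempty) (hKc : Convex ℝ K)
    (hint : ∀ i j : Fin n, i ≠ j → ∀ a ∈ F i, ∀ b ∈ F j, ∃ x ∈ K, ∃ y ∈ K, x + a = y + b) :
    ∃ M : Finset (Fin n), M.card ≤ 3 ∧ ∃ P : Fin 3 → E, ∀ r, r ∉ M → ∀ a ∈ F r, ∃ k, P k ∈ tr K a := by
  classical
  choose b0 hb0 using hFne
  obtain ⟨ρ, hρ⟩ := hK.isBounded.exists_norm_le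
  have hρ0 : 0 ≤ ρ := by
    obtain ⟨x, hx⟩ := hKne
    exact (norm_nonneg x).trans (hρ x hx)
  have hother : ∀ i : Fin n, ∃ j : Fin n, i ≠ j := by
    intro i
    by_cases hi : i = ⟨0, by omega⟩
    · refine ⟨⟨1, by omega⟩, ?_⟩
      rw [hi]; intro h0; simp at h0
    · exact ⟨⟨0, by omega⟩, hi⟩
  set R : ℝ := 3 * ρ + ∑ j, ‖b0 j‖ with hR
  have hR0 : 0 ≤ R := by positivity
  have hsub : ∀ i, ∀ a ∈ F i, tr K a ⊆ Metric.closedBall 0 R := by
    rintro i a ha _ ⟨z, hz, rfl⟩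
    rw [mem_closedBall_zero_iff]
    obtain ⟨j, hij⟩ := hother i
    obtain ⟨x, hx, y, hy, hxy⟩ := hint i j hij a ha (b0 j) (hb0 j)
    have e : z + a = z + (y - x) + b0 j := by
      have : a = y + b0 j - x := by rw [← hxy]; abel
      rw [this]; abel
    have h1 : ‖z + a‖ ≤ ‖z‖ + (‖y‖ + ‖x‖) + ‖b0 j‖ := by
      rw [e]
      exact (norm_add_le _ _).trans (add_le_add ((norm_add_le _ _).trans
        (add_le_add le_rfl (norm_sub_le _ _))) le_rfl)
    have h2 : ‖b0 j‖ ≤ ∑ j, ‖b0 j‖ :=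
      Finset.single_le_sum (f := fun j => ‖b0 j‖) (fun _ _ => norm_nonneg _) (Finset.mem_univ j)
    have := hρ z hz
    have := hρ x hx
    have := hρ y hy
    show ‖z + a‖ ≤ R
    rw [hR]; linarith
  by_contra hcon
  push Not at hcon
  have hQ : IsCompact (Set.pi Set.univ (fun _ : Fin 3 => Metric.closedBall (0 : E) R)) :=
    isCompact_univ_pi (fun _ => isCompact_closedBall _ _)
  have hfinite : ∀ M : Finset (Fin n), M.card ≤ 3 → ∃ u : Finset {p : Fin n × E // p.1 ∉ M ∧ p.2 ∈ F p.1},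
      (Set.pi Set.univ (fun _ : Fin 3 => Metric.closedBall (0 : E) R)) ∩
        ⋂ i ∈ u, {P : Fin 3 → E | ∃ k, P k ∈ tr K i.1.2} = ∅ := by
    intro M hM
    refine hQ.elim_finite_subfamily_closed
      (fun i : {p : Fin n × E // p.1 ∉ M ∧ p.2 ∈ F p.1} => {P : Fin 3 → E | ∃ k, P k ∈ tr K i.1.2}) ?_ ?_
    · intro i
      have e : {P : Fin 3 → E | ∃ k, P k ∈ tr K i.1.2} = ⋃ k : Fin 3, (fun P : Fin 3 → E => P k) ⁻¹' (tr K i.1.2) := by
        ext P
        simp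
      rw [e]
      exact isClosed_iUnion_of_finite (fun k => (tr_compact hK _).isClosed.preimage (continuous_apply k))
    · rw [Set.eq_empty_iff_forall_notMem]
      rintro P ⟨-, hP⟩
      obtain ⟨r, hr, a, ha, hPa⟩ := hcon M hM P
      obtain ⟨k, hk⟩ := Set.mem_iInter.1 hP ⟨(r, a), hr, ha⟩
      exact hPa k hk
  choose! u hu using (fun M : Finset (Fin n) => fun hM : M.card ≤ 3 => hfinite M hM)
  -- the finite subfamilies
  let F' : Fin n → Set E := fun i => {b0 i} ∪ ⋃ M : {M : Finset (Fin n) // M.card ≤ 3},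
    ⋃ p ∈ u M.1, {a | p.1.1 = i ∧ a = p.1.2}
  have hF'sub : ∀ i, F' i ⊆ F i := by
    intro i a ha
    rcases ha with ha | ha
    · rw [Set.mem_singleton_iff] at ha
      rw [ha]; exact hb0 i
    · simp only [Set.mem_iUnion] at ha
      obtain ⟨M, p, hp, h1, h2⟩ := ha
      rw [h2, ← h1]
      exact p.2.2
  have hF'fin : ∀ i, (F' i).Finite := by
    intro i
    refine (Set.finite_singleton _).union (Set.finite_iUnion (fun M => ?_))
    refine Set.Finite.biUnion (Finset.finite_toSet _) (fun p _ => ?_)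
    refine (Set.finite_singleton p.1.2).subset ?_
    rintro a ⟨-, ha⟩
    exact ha
  obtain ⟨M, hM, P, hP⟩ := finite_version hn F' hF'fin (fun i => ⟨b0 i, Or.inl rfl⟩) hK hKne hKc
    (fun i j hij a ha b hb => hint i j hij a (hF'sub i ha) b (hF'sub j hb))
  have hempty := hu M hM
  rw [Set.eq_empty_iff_forall_notMem] at hempty
  refine hempty (fun k => if P k ∈ Metric.closedBall (0 : E) R then P k else 0) ⟨?_, ?_⟩
  · intro k _
    show (if P k ∈ Metric.closedBall (0 : E) R then P k else 0) ∈ Metric.closedBall (0 : E) R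
    split_ifs with h
    · exact h
    · rw [mem_closedBall_zero_iff, norm_zero]; exact hR0
  · refine Set.mem_iInter₂.2 (fun p hp => ?_)
    have hpF : p.1.2 ∈ F' p.1.1 := by
      refine Or.inr ?_
      simp only [Set.mem_iUnion]
      exact ⟨⟨M, hM⟩, p, hp, rfl, rfl⟩
    obtain ⟨k, hk⟩ := hP p.1.1 p.2.1 p.1.2 hpF
    refine ⟨k, ?_⟩
    show (if P k ∈ Metric.closedBall (0 : E) R then P k else 0) ∈ tr K p.1.2
    rw [if_pos (hsub _ _ p.2.2 hk)]
    exact hk

end Pool.Agent.H70.TC
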