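import Pool.Agent.H70.TC.Tri

set_option autoImplicit false

/-!
# The largest triangle with three members of different families beyond its sides
-/

namespace Pool.Agent.H70.TC

/-- Members `K + a k` of three different families lie beyond the sides of the triangle `V`. -/
structure Conf (K : Set E) {n : ℕ} (F : Fin n → Set E) (V : Fin 3 → E) (c : Fin 3 → Fin n) (a : Fin 3 → E) :
    Prop where
  inj : Function.Injective c
  mem : ∀ k, a k ∈ F (c k)
  side : ∀ k, ∀ x ∈ K, ar (x + a k) (V (k + 1)) (V (k + 2)) ≤ 0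

/-- Twice the area of `V`. -/
noncomputable def AR (V : Fin 3 → E) : ℝ := ar (V 0) (V 1) (V 2)

lemma AR_eq (V : Fin 3 → E) (k : Fin 3) : ar (V k) (V (k + 1)) (V (k + 2)) = AR V := by
  unfold AR
  fin_cases k
  · rfl
  · show ar (V 1) (V (1 + 1)) (V (1 + 2)) = _
    rw [show (1 + 1 : Fin 3) = 2 from rfl, show (1 + 2 : Fin 3) = 0 from rfl, ar_cyc]
  · show ar (V 2) (V (2 + 1)) (V (2 + 2)) = _
    rw [show (2 + 1 : Fin 3) = 0 from rfl, show (2 + 2 : Fin 3) = 1 from rfl, ← ar_cyc]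

variable {K : Set E} {n : ℕ} {F : Fin n → Set E}

/-- The triangles are bounded. -/
lemma Conf.bound {V : Fin 3 → E} {c : Fin 3 → Fin n} {a : Fin 3 → E} (h : Conf K F V c a) (hD : 0 < AR V)
    (hint : ∀ i j : Fin n, i ≠ j → ∀ a ∈ F i, ∀ b ∈ F j, ∃ x ∈ K, ∃ y ∈ K, x + a = y + b)
    (R : ℝ) (hR : ∀ i, ∀ a ∈ F i, ∀ x ∈ K, ‖x + a‖ ≤ R) (k : Fin 3) : ‖V k‖ ≤ R := by
  obtain ⟨m, hm⟩ := Finite.exists_max (fun k => ‖V k‖)
  refine (hm k).trans ?_
  have hne : c (m + 1) ≠ c (m + 2) := by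
    intro h0
    have := h.inj h0
    revert this
    fin_cases m <;> decide
  obtain ⟨x, hx, y, hy, hxy⟩ := hint _ _ hne (a (m + 1)) (h.mem _) (a (m + 2)) (h.mem _)
  have s1 := h.side (m + 1) x hx
  have s2 := h.side (m + 2) y hy
  rw [← hxy] at s2
  have e1 : m + 1 + 1 = m + 2 := by fin_cases m <;> rfl
  have e2 : m + 1 + 2 = m := by fin_cases m <;> rfl
  have e3 : m + 2 + 1 = m := by fin_cases m <;> rfl
  have e4 : m + 2 + 2 = m + 1 := by fin_cases m <;> rfl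
  rw [e1, e2] at s1
  rw [e3, e4] at s2
  set q := x + a (m + 1) with hq
  have hqR : ‖q‖ ≤ R := hR _ _ (h.mem _) x hx
  have hb := ar_bary (V m) (V (m + 1)) (V (m + 2)) q
  have hs := ar_sum (V m) (V (m + 1)) (V (m + 2)) q
  rw [AR_eq V m] at hb hs
  set α := ar q (V (m + 1)) (V (m + 2)) with hα
  set β := ar q (V (m + 2)) (V m) with hβ
  set γ := ar q (V m) (V (m + 1)) with hγ
  have hα' : 0 ≤ α := by linarith
  have h1 : α • V m = AR V • q + (-β) • V (m + 1) + (-γ) • V (m + 2) := by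
    rw [hb]; module
  have h2 : ‖α • V m‖ ≤ AR V * ‖q‖ + (-β) * ‖V (m + 1)‖ + (-γ) * ‖V (m + 2)‖ := by
    rw [h1]
    refine (norm_add_le _ _).trans ?_
    refine add_le_add ((norm_add_le _ _).trans ?_) ?_
    · rw [norm_smul, norm_smul, Real.norm_of_nonneg hD.le, Real.norm_of_nonneg (neg_nonneg.2 s1)]
    · rw [norm_smul, Real.norm_of_nonneg (neg_nonneg.2 s2)]
  rw [norm_smul, Real.norm_of_nonneg hα'] at h2
  have h3 : (-β) * ‖V (m + 1)‖ ≤ (-β) * ‖V m‖ := mul_le_mul_of_nonneg_left (hm _) (neg_nonneg.2 s1)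
  have h4 : (-γ) * ‖V (m + 2)‖ ≤ (-γ) * ‖V m‖ := mul_le_mul_of_nonneg_left (hm _) (neg_nonneg.2 s2)
  have h5 : AR V * ‖V m‖ ≤ AR V * ‖q‖ := by
    have : AR V * ‖V m‖ = α * ‖V m‖ + β * ‖V m‖ + γ * ‖V m‖ := by rw [← hs]; ring
    rw [this]; linarith
  exact (le_of_mul_le_mul_left h5 hD).trans hqR

/-- There is a largest triangle. -/
lemma exists_max (hF : ∀ i, (F i).Finite)
    (hint : ∀ i j : Fin n, i ≠ j → ∀ a ∈ F i, ∀ b ∈ F j, ∃ x ∈ K, ∃ y ∈ K, x + a = y + b)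
    (R : ℝ) (hR : ∀ i, ∀ a ∈ F i, ∀ x ∈ K, ‖x + a‖ ≤ R)
    (hex : ∃ V c a, Conf K F V c a ∧ 0 < AR V) :
    ∃ V c a, Conf K F V c a ∧ 0 < AR V ∧ ∀ V' c' a', Conf K F V' c' a' → AR V' ≤ AR V := by
  have harc : ∀ k : Fin 3, ∀ z : E, Continuous (fun V : Fin 3 → E => ar z (V (k + 1)) (V (k + 2))) := by
    intro k z
    unfold ar
    fun_prop
  have hARc : Continuous AR := by
    unfold AR ar
    fun_prop
  have hclosed : IsClosed {V : Fin 3 → E | ∃ c a, Conf K F V c a} := by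
    have e : {V : Fin 3 → E | ∃ c a, Conf K F V c a} =
        ⋃ c ∈ {c : Fin 3 → Fin n | Function.Injective c}, ⋃ a ∈ Set.pi Set.univ (fun k => F (c k)),
          ⋂ k : Fin 3, ⋂ x ∈ K, {V : Fin 3 → E | ar (x + a k) (V (k + 1)) (V (k + 2)) ≤ 0} := by
      ext V
      simp only [Set.mem_ofPred_eq, Set.mem_iUnion, Set.mem_iInter, Set.mem_pi, Set.mem_univ, true_implies,
        exists_prop]
      constructor
      · rintro ⟨c, a, h⟩
        exact ⟨c, h.inj, a, h.mem, h.side⟩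
      · rintro ⟨c, h1, a, h2, h3⟩
        exact ⟨c, a, h1, h2, h3⟩
    rw [e]
    refine Set.Finite.isClosed_biUnion (Set.toFinite _) (fun c _ => ?_)
    refine Set.Finite.isClosed_biUnion (Set.Finite.pi (fun k => hF (c k))) (fun a _ => ?_)
    refine isClosed_iInter (fun k => isClosed_biInter (fun x _ => ?_))
    exact isClosed_le (harc k _) continuous_const
  have hcomp : IsCompact (Set.pi Set.univ (fun _ : Fin 3 => Metric.closedBall (0 : E) R)) :=
    isCompact_univ_pi (fun _ => isCompact_closedBall _ _)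
  have hcomp2 := hcomp.inter_right hclosed
  obtain ⟨V0, c0, a0, h0, h0'⟩ := hex
  have hV0 : V0 ∈ Set.pi Set.univ (fun _ : Fin 3 => Metric.closedBall (0 : E) R) ∩
      {V : Fin 3 → E | ∃ c a, Conf K F V c a} := by
    refine ⟨?_, c0, a0, h0⟩
    intro k _
    rw [mem_closedBall_zero_iff]
    exact h0.bound h0' hint R hR k
  obtain ⟨V, ⟨hV1, c, a, hV2⟩, hmax⟩ := hcomp2.exists_isMaxOn ⟨V0, hV0⟩ hARc.continuousOn
  have h1 : 0 < AR V := lt_of_lt_of_le h0' (hmax hV0)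
  refine ⟨V, c, a, hV2, h1, ?_⟩
  intro V' c' a' h'
  rcases le_or_gt (AR V') 0 with hneg | hpos
  · exact hneg.trans h1.le
  · have : V' ∈ Set.pi Set.univ (fun _ : Fin 3 => Metric.closedBall (0 : E) R) ∩
        {V : Fin 3 → E | ∃ c a, Conf K F V c a} := by
      refine ⟨?_, c', a', h'⟩
      intro k _
      rw [mem_closedBall_zero_iff]
      exact h'.bound hpos hint R hR k
    exact hmax this

end Pool.Agent.H70.TC
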