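import Pool.Agent.H70.TC.Imp

set_option autoImplicit false

/-!
# The midpoints of the sides of a largest triangle pierce all other families
-/

namespace Pool.Agent.H70.TC

variable {K : Set E} {n : ℕ} {F : Fin n → Set E}

lemma ar_self1 (A B : E) : ar A A B = 0 := by unfold ar; ring

lemma ar_self2 (A B : E) : ar B A B = 0 := by unfold ar; ring

lemma ar_mid_self (V : Fin 3 → E) (k : Fin 3) : ar (mid V k) (V (k + 1)) (V (k + 2)) = 0 := by
  unfold mid
  rw [ar_affine _ _ _ _ _ _ (by norm_num), ar_self1, ar_self2]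
  ring

lemma ar_mid_ne (V : Fin 3 → E) (k j : Fin 3) (h : j ≠ k) :
    ar (mid V j) (V (k + 1)) (V (k + 2)) = AR V / 2 := by
  have e1 : k + 1 + 1 = k + 2 := by fin_cases k <;> rfl
  have e2 : k + 1 + 2 = k := by fin_cases k <;> rfl
  have e3 : k + 2 + 1 = k := by fin_cases k <;> rfl
  have e4 : k + 2 + 2 = k + 1 := by fin_cases k <;> rfl
  unfold mid
  rw [ar_affine _ _ _ _ _ _ (by norm_num)]
  rcases fin3_cases k j with rfl | rfl | rfl
  · exact absurd rfl h
  · rw [e1, e2, ar_self2, AR_eq]; ring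
  · rw [e3, e4, ar_self1, AR_eq]; ring

/-- The midpoints of the sides of a largest triangle pierce all members of the other families. -/
lemma Conf.three {V : Fin 3 → E} {c : Fin 3 → Fin n} {a : Fin 3 → E} (h : Conf K F V c a) (hD : 0 < AR V)
    (hK : IsCompact K) (hKne : K.Nonempty) (hKc : Convex ℝ K)
    (hint : ∀ i j : Fin n, i ≠ j → ∀ a ∈ F i, ∀ b ∈ F j, ∃ x ∈ K, ∃ y ∈ K, x + a = y + b)
    (hmax : ∀ V' c' a', Conf K F V' c' a' → AR V' ≤ AR V) (r : Fin n) (hr : ∀ i, c i ≠ r) (a' : E)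
    (ha' : a' ∈ F r) : ∃ k, mid V k ∈ tr K a' := by
  by_contra hcon
  push Not at hcon
  set b : Fin 3 → E → ℝ := fun k x => ar x (V (k + 1)) (V (k + 2)) / AR V with hb
  have hbc : ∀ k, Continuous (b k) := by
    intro k
    rw [hb]
    unfold ar
    fun_prop
  have hmin : ∀ k, ∃ z ∈ tr K a', ∀ x ∈ tr K a', b k z ≤ b k x := by
    intro k
    obtain ⟨z, hz, hz'⟩ := (tr_compact hK a').exists_isMinOn (hKne.image _) (hbc k).continuousOn
    exact ⟨z, hz, fun x hx => hz' hx⟩
  choose nn hnn hnn' using hmin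
  have hmid : ∀ k, ∃ z ∈ K, z + a k = mid V k := fun k => h.mid_mem hD hK hKc hmax k
  choose zz hzz hzz' using hmid
  obtain ⟨q, hq1, hq2⟩ := h.meets hD hK hKne hKc hmax r hr a' ha'
  refine cover (tr K a') b (fun k => zz k + a') nn q ⟨?_, ?_, hnn, hq1, ?_, ?_, ?_, ?_⟩ ?_
  · intro x
    have := ar_sum (V 0) (V 1) (V 2) x
    show ar x (V 1) (V 2) / AR V + ar x (V 2) (V 0) / AR V + ar x (V 0) (V 1) / AR V = 1
    rw [← add_div, ← add_div, this]
    exact div_self hD.ne'
  · intro k
    exact ⟨zz k, hzz k, rfl⟩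
  · rintro k _ ⟨x, hx, rfl⟩
    have h1 := h.side k x hx
    have h2 := ar_shift (V (k + 1)) (V (k + 2)) (x + a') (zz k + a') (a k - a')
    rw [show x + a' + (a k - a') = x + a k by abel, show zz k + a' + (a k - a') = zz k + a k by abel, hzz' k,
      ar_mid_self] at h2
    show ar (x + a') _ _ / AR V ≤ ar (zz k + a') _ _ / AR V
    rw [div_le_div_iff_of_pos_right hD]
    linarith
  · intro k
    obtain ⟨x, hx, y, hy, hxy⟩ := hint r (c k) (hr k).symm a' ha' (a k) (h.mem k)
    refine (hnn' k (x + a') ⟨x, hx, rfl⟩).trans ?_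
    show ar (x + a') _ _ / AR V ≤ 0
    rw [hxy]
    exact div_nonpos_of_nonpos_of_nonneg (h.side k y hy) hD.le
  · intro k j hjk
    have hne : c j ≠ c k := fun h0 => hjk (h.inj h0)
    obtain ⟨x, hx, y, hy, hxy⟩ := hint (c j) (c k) hne (a j) (h.mem j) (a k) (h.mem k)
    refine (hnn' k (x + a') ⟨x, hx, rfl⟩).trans ?_
    have h1 := h.side k y hy
    rw [← hxy] at h1
    have h2 := ar_shift (V (k + 1)) (V (k + 2)) (x + a') (zz j + a') (a j - a')
    rw [show x + a' + (a j - a') = x + a j by abel, show zz j + a' + (a j - a') = zz j + a j by abel, hzz' j,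
      ar_mid_ne V k j hjk] at h2
    show ar (x + a') _ _ / AR V ≤ ar (zz j + a') _ _ / AR V - 1 / 2
    rw [div_sub_div _ _ hD.ne' two_ne_zero, div_le_div_iff₀ hD (by positivity)]
    nlinarith
  · intro k
    have hsub : convexHull ℝ (Set.range (mid V)) ⊆ {x | ar x (V (k + 1)) (V (k + 2)) ≤ AR V / 2} := by
      refine convexHull_min ?_ ?_
      · rintro _ ⟨j, rfl⟩
        by_cases hjk : j = k
        · rw [Set.mem_ofPred_eq, hjk, ar_mid_self]; linarith
        · rw [Set.mem_ofPred_eq, ar_mid_ne V k j hjk]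
      · intro x hx y hy s t hs ht hst
        rw [Set.mem_ofPred_eq] at hx hy ⊢
        rw [ar_affine _ _ _ _ _ _ hst]
        have h1 := mul_le_mul_of_nonneg_left hx hs
        have h2 := mul_le_mul_of_nonneg_left hy ht
        have h3 : AR V / 2 = s * (AR V / 2) + t * (AR V / 2) := by rw [← add_mul, hst, one_mul]
        linarith
    have := hsub hq2
    rw [Set.mem_ofPred_eq] at this
    show ar q _ _ / AR V ≤ 1 / 2
    rw [div_le_iff₀ hD]
    linarith
  · intro k
    obtain ⟨f, u, hu, hf⟩ := geometric_hahn_banach_point_closed (tr_convex hKc a')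
      (tr_compact hK a').isClosed (hcon k)
    rw [f_mid] at hu
    refine ⟨f (V k) - (f (V (k + 1)) + f (V (k + 2))) / 2, (f (V (k + 1)) - f (V (k + 2))) / 2, ?_⟩
    intro x hx
    have h1 := hf x hx
    have h2 := lin_bary f (V k) (V (k + 1)) (V (k + 2)) x
    have h3 := ar_sum (V k) (V (k + 1)) (V (k + 2)) x
    rw [AR_eq] at h2 h3
    have e1 : k + 1 + 1 = k + 2 := by fin_cases k <;> rfl
    have e2 : k + 1 + 2 = k := by fin_cases k <;> rfl
    have e3 : k + 2 + 1 = k := by fin_cases k <;> rfl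
    have e4 : k + 2 + 2 = k + 1 := by fin_cases k <;> rfl
    have h4 : (f (V k) - (f (V (k + 1)) + f (V (k + 2))) / 2) * b k x +
        (f (V (k + 1)) - f (V (k + 2))) / 2 * (b (k + 1) x - b (k + 2) x) =
        (AR V * f x - AR V * ((f (V (k + 1)) + f (V (k + 2))) / 2)) / AR V := by
      show (f (V k) - (f (V (k + 1)) + f (V (k + 2))) / 2) * (ar x (V (k + 1)) (V (k + 2)) / AR V) +
        (f (V (k + 1)) - f (V (k + 2))) / 2 * (ar x (V (k + 1 + 1)) (V (k + 1 + 2)) / AR V -
          ar x (V (k + 2 + 1)) (V (k + 2 + 2)) / AR V) = _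
      rw [e1, e2, e3, e4, h2]
      have h5 : AR V = ar x (V (k + 1)) (V (k + 2)) + ar x (V (k + 2)) (V k) + ar x (V k) (V (k + 1)) := h3.symm
      have h6 : ∀ p q r A B C D : ℝ, (A - (B + C) / 2) * (p / D) + (B - C) / 2 * (q / D - r / D) =
          ((A - (B + C) / 2) * p + (B - C) / 2 * (q - r)) / D := by intros; ring
      rw [h6]
      congr 1
      linear_combination ((f (V (k + 1)) + f (V (k + 2))) / 2) * h5
    rw [h4]
    have : 0 < AR V * f x - AR V * ((f (V (k + 1)) + f (V (k + 2))) / 2) := by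
      have := mul_lt_mul_of_pos_left (hu.trans h1) hD
      linarith
    positivity

end Pool.Agent.H70.TC
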