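import Pool.Agent.H70.TC.Cov

set_option autoImplicit false

/-!
# Triangles in the plane: signed area, barycentric coordinates, cutting off larger triangles
-/

namespace Pool.Agent.H70.TC

/-- The plane. -/
abbrev E := EuclideanSpace ℝ (Fin 2)

/-- Twice the signed area of the triangle `A B C`. -/
noncomputable def ar (A B C : E) : ℝ := (B 0 - A 0) * (C 1 - A 1) - (B 1 - A 1) * (C 0 - A 0)

lemma ar_cyc (A B C : E) : ar B C A = ar A B C := by unfold ar; ring

lemma ext2 {u v : E} (h0 : u 0 = v 0) (h1 : u 1 = v 1) : u = v := by
  ext i
  fin_cases i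
  · exact h0
  · exact h1

lemma ar_sum (A B C x : E) : ar x B C + ar x C A + ar x A B = ar A B C := by unfold ar; ring

lemma ar_affine (B C x y : E) (s t : ℝ) (h : s + t = 1) : ar (s • x + t • y) B C = s * ar x B C + t * ar y B C := by
  obtain rfl : t = 1 - s := by linarith
  simp only [ar, PiLp.add_apply, PiLp.smul_apply, smul_eq_mul]
  ring

/-- `x` is the barycentric combination of the vertices. -/
lemma ar_bary (A B C x : E) : ar A B C • x = ar x B C • A + ar x C A • B + ar x A B • C := by
  apply ext2
  · simp only [ar, PiLp.add_apply, PiLp.smul_apply, smul_eq_mul]; ring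
  · simp only [ar, PiLp.add_apply, PiLp.smul_apply, smul_eq_mul]; ring

/-- Differences of `ar` in the first argument do not depend on the base point. -/
lemma ar_shift (B C x y v : E) : ar (x + v) B C - ar x B C = ar (y + v) B C - ar y B C := by
  simp only [ar, PiLp.add_apply]; ring

/-- The linear functional `f` in barycentric coordinates. -/
lemma lin_bary (f : E →L[ℝ] ℝ) (A B C x : E) :
    ar A B C * f x = ar x B C * f A + ar x C A * f B + ar x A B * f C := by
  have h := congrArg f (ar_bary A B C x)
  simpa only [map_add, map_smul, smul_eq_mul] using h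

/-- Cutting the cone at `A` by the line `f = u` gives a triangle with larger area if the midpoint of `B C` is on the inner
side. -/
lemma cut (A B C : E) (hD : 0 < ar A B C) (f : E →L[ℝ] ℝ) (u : ℝ) (hA : f A < u) (hB : f A < f B) (hC : f A < f C)
    (hM : f B + f C < 2 * u) :
    ∃ t s : ℝ, 0 < t ∧ 0 < s ∧ ar A B C < ar A (A + t • (B - A)) (A + s • (C - A)) ∧
      ∀ x : E, (ar x (A + s • (C - A)) A = s * ar x C A) ∧ (ar x A (A + t • (B - A)) = t * ar x A B) ∧
        (u ≤ f x → ar x (A + t • (B - A)) (A + s • (C - A)) ≤ 0) := by
  set p := u - f A with hp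
  set q := f B - f A with hq
  set r := f C - f A with hr
  have hp0 : 0 < p := by rw [hp]; linarith
  have hq0 : 0 < q := by rw [hq]; linarith
  have hr0 : 0 < r := by rw [hr]; linarith
  refine ⟨p / q, p / r, by positivity, by positivity, ?_, ?_⟩
  · have h1 : ar A (A + (p / q) • (B - A)) (A + (p / r) • (C - A)) = (p / q) * (p / r) * ar A B C := by
      simp only [ar, PiLp.add_apply, PiLp.smul_apply, PiLp.sub_apply, smul_eq_mul]
      ring
    rw [h1]
    have h2 : 1 < (p / q) * (p / r) := by
      rw [div_mul_div_comm, lt_div_iff₀ (by positivity), one_mul]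
      have : q + r < 2 * p := by rw [hp, hq, hr]; linarith
      nlinarith [sq_nonneg (q - r)]
    nlinarith
  · intro x
    refine ⟨?_, ?_, ?_⟩
    · simp only [ar, PiLp.add_apply, PiLp.smul_apply, PiLp.sub_apply, smul_eq_mul]
      ring
    · simp only [ar, PiLp.add_apply, PiLp.smul_apply, PiLp.sub_apply, smul_eq_mul]
      ring
    · intro hx
      have hb := lin_bary f A B C x
      have hs := ar_sum A B C x
      have h1 : ar x (A + (p / q) • (B - A)) (A + (p / r) • (C - A)) =
          (p / q) * (p / r) * ar A B C - (p / q) * ar x A B - (p / r) * ar x C A := by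
        simp only [ar, PiLp.add_apply, PiLp.smul_apply, PiLp.sub_apply, smul_eq_mul]
        ring
      have h2 : ar A B C * (f x - f A) = q * ar x C A + r * ar x A B := by
        have e : ar x B C = ar A B C - ar x C A - ar x A B := by linarith
        rw [e] at hb
        rw [hq, hr]
        linarith
      have h3 : (p / q) * (p / r) * ar A B C - (p / q) * ar x A B - (p / r) * ar x C A =
          p / (q * r) * (ar A B C * (u - f x)) := by
        have e : ar A B C * (u - f x) = p * ar A B C - (q * ar x C A + r * ar x A B) := by
          rw [← h2, hp]; ring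
        rw [e]
        field_simp
        ring
      rw [h1, h3]
      have : 0 < p / (q * r) := by positivity
      have h4 : ar A B C * (u - f x) ≤ 0 := mul_nonpos_of_nonneg_of_nonpos hD.le (by linarith)
      exact mul_nonpos_of_nonneg_of_nonpos this.le h4

end Pool.Agent.H70.TC
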